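import Pool.Agent.W763.PB.Stm

/-! Project PB: the limit unitary. -/

set_option autoImplicit false
open Filter Topology
open scoped InnerProductSpace

namespace Pool.Agent.W499.PB.L4

open Pool.Agent.W763.PB

/-- Strong limits of contractions can be applied to convergent sequences. -/
theorem tendsto_app {E : Type} [NormedAddCommGroup E] (A : ℕ → E → E) (B : E → E) (w : ℕ → E)
    (w0 : E) (hsub : ∀ n x y, ‖A n x - A n y‖ ≤ ‖x - y‖)
    (hA : ∀ x, Tendsto (fun n => A n x) atTop (𝓝 (B x))) (hw : Tendsto w atTop (𝓝 w0)) :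
    Tendsto (fun n => A n (w n)) atTop (𝓝 (B w0)) := by
  have h1 : Tendsto (fun n => A n (w n) - A n w0) atTop (𝓝 0) := by
    refine squeeze_zero_norm (fun n => hsub n (w n) w0) ?_
    have := (hw.sub_const w0).norm
    rw [sub_self, norm_zero] at this
    exact this
  have h2 := h1.add (hA w0)
  rw [zero_add] at h2
  refine h2.congr fun n => ?_
  exact sub_add_cancel _ _

/-- The strong limit. -/
theorem lim (hL2 : S_L2) (hL3 : S_L3) (H : ℕ → Type) [∀ l, NormedAddCommGroup (H l)]
    [∀ l, InnerProductSpace ℂ (H l)] [∀ l, CompleteSpace (H l)] (J : ∀ l, H l →ₗᵢ[ℂ] H (l + 1))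
    (E : Type) [NormedAddCommGroup E] [InnerProductSpace ℂ E] [CompleteSpace E]
    (i : ∀ l, H l →ₗᵢ[ℂ] E) (hJ : ∀ l x, i (l + 1) (J l x) = i l x)
    (hd : Dense (⋃ l, Set.range (i l))) (U : ∀ l, H l ≃ₗᵢ[ℂ] H l) (e : ℕ → ℝ) (he : Summable e)
    (hU : ∀ l x, ‖U (l + 1) (J l x) - J l (U l x)‖ ≤ e l * ‖x‖) :
    ∃ A : E →L[ℂ] E, ∀ v, Tendsto (fun m => i m (U m
          (ContinuousLinearMap.adjoint (i m).toContinuousLinearMap v))) atTop (𝓝 (A v)) := by
  obtain ⟨h1, h2, h3, h4, h5⟩ := hL3 H J E i hJ hd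
  let A : ℕ → E →L[ℂ] E := fun m => (i m).toContinuousLinearMap ∘L
    ((U m).toContinuousLinearEquiv : H m →L[ℂ] H m) ∘L
      ContinuousLinearMap.adjoint (i m).toContinuousLinearMap
  have hA : ∀ m v, A m v = i m (U m
      (ContinuousLinearMap.adjoint (i m).toContinuousLinearMap v)) := fun m v => rfl
  have hn : ∀ m v, ‖A m v‖ ≤ 1 * ‖v‖ := by
    intro m v
    rw [hA, LinearIsometry.norm_map, LinearIsometryEquiv.norm_map, one_mul]
    exact h5 m v
  obtain ⟨B, hB, _⟩ := hL2 E A 1 _ hd hn (by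
    intro x hx
    obtain ⟨l, y, rfl⟩ := Set.mem_iUnion.1 hx
    have hc : CauchySeq fun n => A (n + l) (i l y) := by
      refine cauchySeq_of_dist_le_of_summable (fun n => |e (n + l)| * ‖i l y‖) ?_ ?_
      · intro n
        have e1 : n.succ + l = (n + l) + 1 := by omega
        rw [e1, dist_comm, dist_eq_norm, hA, hA, h3 l (n + l) y (by omega), ← hJ (n + l), ← map_sub,
          LinearIsometry.norm_map]
        refine (hU _ _).trans ?_
        have q1 := h5 (n + l) (i l y)
        have q2 := le_abs_self (e (n + l))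
        have q3 := norm_nonneg (ContinuousLinearMap.adjoint (i (n + l)).toContinuousLinearMap
          (i l y))
        exact (mul_le_mul_of_nonneg_right q2 q3).trans (mul_le_mul_of_nonneg_left q1 (abs_nonneg _))
      · exact ((summable_nat_add_iff l).2 he.abs).mul_right _
    obtain ⟨z, hz⟩ := cauchySeq_tendsto_of_complete hc
    exact ⟨z, (tendsto_add_atTop_iff_nat l).1 hz⟩)
  exact ⟨B, hB⟩

theorem l4 : S_L2 → S_L3 → S_L4 := by
  intro hL2 hL3 H _ _ _ J E _ _ _ i hJ hd U e he hU
  have hU' : ∀ l x, ‖(U (l + 1)).symm (J l x) - J l ((U l).symm x)‖ ≤ e l * ‖x‖ := by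
    intro l x
    have q := hU l ((U l).symm x)
    rw [LinearIsometryEquiv.apply_symm_apply, LinearIsometryEquiv.norm_map, norm_sub_rev] at q
    refine le_trans (le_of_eq ?_) q
    rw [← LinearIsometryEquiv.norm_map (U (l + 1)), map_sub,
      LinearIsometryEquiv.apply_symm_apply]
  obtain ⟨A, hA⟩ := lim hL2 hL3 H J E i hJ hd U e he hU
  obtain ⟨B, hB⟩ := lim hL2 hL3 H J E i hJ hd (fun l => (U l).symm) e he hU'
  obtain ⟨h1, h2, h3, h4, h5⟩ := hL3 H J E i hJ hd
  have hsub : ∀ (V : ∀ l, H l ≃ₗᵢ[ℂ] H l) (n : ℕ) (x y : E),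
      ‖i n (V n (ContinuousLinearMap.adjoint (i n).toContinuousLinearMap x)) -
        i n (V n (ContinuousLinearMap.adjoint (i n).toContinuousLinearMap y))‖ ≤ ‖x - y‖ := by
    intro V n x y
    rw [← map_sub, ← map_sub, ← map_sub, LinearIsometry.norm_map, LinearIsometryEquiv.norm_map]
    exact h5 n _
  have hAB : ∀ v, A (B v) = v := by
    intro v
    have q := tendsto_app (fun m v => i m (U m
      (ContinuousLinearMap.adjoint (i m).toContinuousLinearMap v))) A _ _ (hsub U) hA (hB v)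
    refine tendsto_nhds_unique q ?_
    refine (h4 v).congr fun m => ?_
    rw [h1, LinearIsometryEquiv.apply_symm_apply]
  have hBA : ∀ v, B (A v) = v := by
    intro v
    have q := tendsto_app (fun m v => i m ((U m).symm
      (ContinuousLinearMap.adjoint (i m).toContinuousLinearMap v))) B _ _
      (hsub fun l => (U l).symm) hB (hA v)
    refine tendsto_nhds_unique q ?_
    refine (h4 v).congr fun m => ?_
    rw [h1, LinearIsometryEquiv.symm_apply_apply]
  have hnorm : ∀ v, ‖A v‖ = ‖v‖ := by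
    intro v
    refine tendsto_nhds_unique (hA v).norm ?_
    refine (h4 v).norm.congr fun m => ?_
    rw [LinearIsometry.norm_map, LinearIsometry.norm_map, LinearIsometryEquiv.norm_map]
  let UL : E ≃ₗ[ℂ] E := LinearEquiv.ofLinearMap (A : E →ₗ[ℂ] E) (B : E →ₗ[ℂ] E)
    (LinearMap.ext hAB) (LinearMap.ext hBA)
  let UE : E ≃ₗᵢ[ℂ] E := ⟨UL, hnorm⟩
  refine ⟨UE, ?_, fun v => hB v⟩
  intro n
  induction n with
  | zero =>
    intro v
    exact h4 v
  | succ n ih =>
    intro v
    have q := tendsto_app (fun m v => i m (U m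
      (ContinuousLinearMap.adjoint (i m).toContinuousLinearMap v))) A _ _ (hsub U) hA (ih v)
    have e1 : (UE ^ (n + 1)) v = A ((UE ^ n) v) := by
      rw [pow_succ']
      rfl
    rw [e1]
    refine q.congr fun m => ?_
    rw [h1, pow_succ']
    rfl

end Pool.Agent.W499.PB.L4
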